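import Pool.Agent.W716.FV.StmB
import Pool.Agent.H241R3.FV.TCoverT

set_option autoImplicit false

open MeasureTheory InnerProductGeometry Set
open scoped Pointwise

namespace Pool.Agent.W368.FV.BP

open Pool.Agent.H241R3.FV (Sph Triang coneOf)
open Pool.Agent.W716.FV

lemma telescope (a : ℕ → ZMod 2) (N : ℕ) :
    ∑ k ∈ Finset.range N, (a (k + 1) + a k) = a N + a 0 := by
  have h : ∀ x y : ZMod 2, x + y = x - y := by decide
  calc ∑ k ∈ Finset.range N, (a (k + 1) + a k) = ∑ k ∈ Finset.range N, (a (k + 1) - a k) :=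
        Finset.sum_congr rfl fun k _ => h _ _
    _ = a N - a 0 := Finset.sum_range_sub a N
    _ = a N + a 0 := (h _ _).symm

lemma hull_translate {n : ℕ} (η y : E n) (S : Set (E n)) :
    y ∈ convexHull ℝ ((fun x => x - η) '' S) ↔ y + η ∈ convexHull ℝ S := by
  have h1 : ((fun x => x - η) '' S) = (-η) +ᵥ S := by
    ext x
    simp only [Set.mem_image, Set.mem_vadd_set, vadd_eq_add]
    constructor
    · rintro ⟨w, hw, rfl⟩; exact ⟨w, hw, by abel⟩
    · rintro ⟨w, hw, rfl⟩; exact ⟨w, hw, by abel⟩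
  rw [h1, convexHull_vadd, Set.mem_vadd_set_iff_neg_vadd_mem, neg_neg, vadd_eq_add, add_comm]

lemma half_lt_cos_one : 1 / 2 < Real.cos 1 := by
  rw [← Real.cos_pi_div_three]
  have h3 : 3 < Real.pi := Real.pi_gt_three
  exact Real.cos_lt_cos_of_nonneg_of_le_pi (by norm_num) (by linarith [Real.pi_pos]) (by linarith)

theorem main (hCA : ChainAlg) (hCC : PrCongr) (hEL : EvenList)
    (hGen : Pool.Agent.H241R3.FV.TaskGen) : BottomPar := by
  intro d hd M _ bd hbd ε hε Tr ord hord hB0 r N hr0 hrN η
  classical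
  have := Tr.fin
  have := Tr.dec
  set p : Tr.V × ℕ → E (d + 1) := fun x => r x.2 • (Tr.b x.1 : E (d + 1)) - η with hp
  set z : E (d + 1) := -η with hz'
  -- general position
  have hgen : ∀ᵐ y ∂(volume : Measure (E (d + 1))), ∀ s : Finset (Option (Tr.V × ℕ)),
      s.card ≤ d + 1 →
      y ∉ convexHull ℝ ((fun o : Option (Tr.V × ℕ) => o.elim z p) ''
        (s : Set (Option (Tr.V × ℕ)))) := by
    rw [ae_all_iff]
    intro s
    by_cases hs : s.card ≤ d + 1
    · have h0 := hGen (d + 1) (s.image (fun o : Option (Tr.V × ℕ) => o.elim z p))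
        (Finset.card_image_le.trans hs)
      rw [Finset.coe_image] at h0
      filter_upwards [measure_eq_zero_iff_ae_notMem.mp h0] with y hy _
      exact hy
    · exact Filter.Eventually.of_forall fun y h => absurd h hs
  have htile : ∀ᵐ y ∂(volume : Measure (E (d + 1))), ∃! F, F ∈ Tr.B ∧ y + η ∈ coneOf Tr.b F :=
    (measurePreserving_add_right (volume : Measure (E (d + 1))) η).quasiMeasurePreserving.ae
      Tr.tile
  filter_upwards [hgen, htile] with y hy1 hy2 hy
  set ω : List (Tr.V × ℕ) → ZMod 2 := hz z p y with hω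
  -- one face
  have hface : ∀ F ∈ Tr.B, ∀ k, pr k (hl p y) (ord F) =
      ω ((ord F).map (fun x => (x, k + 1))) + ω ((ord F).map (fun x => (x, k))) +
        dd (pr k ω) (ord F) := by
    intro F hF k
    obtain ⟨hnd, hmem⟩ := hord F
    have hcard : F.card = d + 1 := (Tr.B_sub F hF).1
    have hlen : (ord F).length = d + 1 := by
      rw [← hcard, ← List.toFinset_card_of_nodup hnd]
      congr 1
      ext v
      rw [List.mem_toFinset]
      exact hmem v
    rw [← hCA.2.2]
    apply hCC _ k _ _ _ hnd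
    intro t htn htl _
    apply hEL (E (d + 1)) _ p z y t htn
    · rw [htl, hlen, finrank_euclideanSpace_fin]
    · intro s hs
      rw [finrank_euclideanSpace_fin] at hs
      exact hy1 s hs
  have hsum : ∑ F ∈ Tr.B, ∑ k ∈ Finset.range N, pr k (hl p y) (ord F) =
      ∑ F ∈ Tr.B, (ω ((ord F).map (fun x => (x, N))) + ω ((ord F).map (fun x => (x, 0)))) := by
    have e1 : ∑ F ∈ Tr.B, ∑ k ∈ Finset.range N, pr k (hl p y) (ord F) =
        ∑ F ∈ Tr.B, ((∑ k ∈ Finset.range N, (ω ((ord F).map (fun x => (x, k + 1))) +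
          ω ((ord F).map (fun x => (x, k))))) + ∑ k ∈ Finset.range N, dd (pr k ω) (ord F)) := by
      refine Finset.sum_congr rfl fun F hF => ?_
      rw [← Finset.sum_add_distrib]
      exact Finset.sum_congr rfl fun k _ => hface F hF k
    rw [e1, Finset.sum_add_distrib]
    have e2 : ∑ F ∈ Tr.B, ∑ k ∈ Finset.range N, dd (pr k ω) (ord F) = 0 := by
      rw [Finset.sum_comm]
      exact Finset.sum_eq_zero fun k _ => hB0 (pr k ω)
    rw [e2, add_zero]
    refine Finset.sum_congr rfl fun F _ => ?_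
    exact telescope (fun k => ω ((ord F).map (fun x => (x, k)))) N
  rw [hsum]
  -- level zero
  have hzero : ∀ F ∈ Tr.B, ω ((ord F).map (fun x => (x, 0))) = 0 := by
    intro F _
    have hyz : y ≠ z := by
      have := hy1 {none} (by simp)
      intro e
      apply this
      rw [e]
      apply subset_convexHull
      simp
    simp only [hω, hz]
    rw [if_neg]
    intro hmem
    have hsub : insert z (p '' {v | v ∈ (ord F).map (fun x => (x, 0))}) ⊆ {z} := by
      rintro x (rfl | ⟨v, hv, rfl⟩)
      · rfl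
      · simp only [Set.mem_ofPred_eq, List.mem_map] at hv
        obtain ⟨w, _, rfl⟩ := hv
        simp [hp, hr0, hz']
    have := convexHull_mono hsub hmem
    rw [convexHull_singleton] at this
    exact hyz this
  -- level N
  have htop : ∀ F ∈ Tr.B, ω ((ord F).map (fun x => (x, N))) =
      if y + η ∈ coneOf Tr.b F then 1 else 0 := by
    intro F hF
    simp only [hω, hz]
    have hset : insert z (p '' {v | v ∈ (ord F).map (fun x => (x, N))}) =
        (fun x => x - η) '' (insert 0 ((fun v => r N • (Tr.b v : E (d + 1))) '' (F : Set Tr.V))) := by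
      rw [Set.image_insert_eq, zero_sub]
      congr 1
      ext x
      simp only [Set.mem_image, Set.mem_ofPred_eq, List.mem_map, Finset.mem_coe]
      constructor
      · rintro ⟨v, ⟨w, hw, rfl⟩, rfl⟩
        exact ⟨_, ⟨w, ((hord F).2 w).1 hw, rfl⟩, rfl⟩
      · rintro ⟨_, ⟨w, hw, rfl⟩, rfl⟩
        exact ⟨(w, N), ⟨w, ((hord F).2 w).2 hw, rfl⟩, rfl⟩
    rw [hset]
    have hiff : y ∈ convexHull ℝ ((fun x => x - η) ''
        (insert 0 ((fun v => r N • (Tr.b v : E (d + 1))) '' (F : Set Tr.V)))) ↔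
        y + η ∈ coneOf Tr.b F := by
      rw [hull_translate]
      constructor
      · intro h
        exact Pool.Agent.H241R3.FV.TCoverT.hull_sub_cone Tr.b F
          (fun v => r N • (Tr.b v : E (d + 1))) hrN.le (fun v _ => rfl) h
      · intro h
        refine Pool.Agent.H241R3.FV.TCoverT.cone_sub_hull Tr.b F
          (fun v => r N • (Tr.b v : E (d + 1))) (e := 1) hrN (fun v _ => rfl) ?_ one_pos ?_ ?_ h ?_
        · rw [← Finset.card_pos, (Tr.B_sub F hF).1]
          omega
        · linarith [Real.pi_gt_three]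
        · intro v hv w hw
          obtain ⟨-, σ, hσ, hFσ⟩ := Tr.B_sub F hF
          refine (hbd _ _).trans ?_
          rw [Tr.b_spec F hF v hv, Tr.b_spec F hF w hw]
          exact (Tr.mesh σ hσ v (hFσ hv) w (hFσ hw)).le.trans hε
        · have h1 := half_lt_cos_one
          have h2 : r N / 2 ≤ r N * Real.cos 1 := by nlinarith
          linarith
    by_cases hc : y + η ∈ coneOf Tr.b F
    · rw [if_pos hc, if_pos (hiff.2 hc)]
    · rw [if_neg hc, if_neg (fun h => hc (hiff.1 h))]
  obtain ⟨F0, ⟨hF0B, hF0y⟩, hF0u⟩ := hy2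
  rw [Finset.sum_eq_single F0]
  · rw [hzero F0 hF0B, htop F0 hF0B, if_pos hF0y, add_zero]
  · intro F hF hne
    rw [hzero F hF, htop F hF, if_neg, add_zero]
    intro hc
    exact hne (hF0u F ⟨hF, hc⟩)
  · intro h
    exact absurd hF0B h

end Pool.Agent.W368.FV.BP
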